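import Pool.Agent.K3h22.PK

/-!
# Multiples of a smooth lattice polytope, with the multiple

Variant of `Pool.Agent.K3h22.PK.t_PK` (helper22) in which the new set is the set of the sums of `k`
points of the given one.
-/

set_option autoImplicit false

namespace Pool.Agent.K3h75.TV

open Pool.Agent.K3h75.TO Module Pool.Agent.K3h22.PK

/-- A multiple of a smooth polytope is large near the vertices. -/
def S_PK2 : Prop := ∀ (Λ G : Type) [AddCommGroup Λ] [Group G] [Finite G] [DistribMulAction G Λ]
  (P : Finset Λ), SmP P → (∀ (g : G), ∀ μ ∈ P, g • μ ∈ P) →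
  ∃ k : ℕ, 1 ≤ k ∧ (∀ (g : G), ∀ μ ∈ Pk P k, g • μ ∈ Pk P k) ∧
    ∀ μ ∈ Pk P k, ∃ v ∈ Pk P k,
      (∃ s : Multiset Λ, (∀ κ ∈ s, κ ∈ Pk P k) ∧ (s.card + 1) • μ = v + s.sum) ∧
      ∃ (n : ℕ) (b : Basis (Fin n) ℤ Λ), (∀ i, v + b i ∈ Pk P k) ∧
        (∀ κ ∈ Pk P k, ∀ i, 0 ≤ b.repr (κ - v) i) ∧
        ∀ (g : G) (p : ℕ), p.Prime → (∀ a : Λ, (DistribSMul.toAddMonoidHom Λ g)^[p] a = a) →
          Lg b (DistribSMul.toAddMonoidHom Λ g) p (Pk P k) v

theorem t_PK2 : S_LAT → S_PK2 := by
  classical
  intro hLAT Λ G _ _ _ _ P hP hG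
  -- choose the vertices
  choose v hv hs nn b hbP hbn using fun μ : {x // x ∈ P} => hP.vx μ.1 μ.2
  -- the bounds
  choose K hK using fun (μ : {x // x ∈ P}) (g : G) (I : Set (Fin (nn μ))) =>
    bound hLAT (b μ) (DistribSMul.toAddMonoidHom Λ g) I
  obtain ⟨k, hk1, hk⟩ : ∃ k : ℕ, 1 ≤ k ∧ ∀ μ g I, K μ g I ≤ k := by
    have hfin : (Set.range fun q : (Σ μ : {x // x ∈ P}, G × Set (Fin (nn μ))) =>
        K q.1 q.2.1 q.2.2).Finite := Set.finite_range _
    obtain ⟨B, hB⟩ := hfin.bddAbove
    exact ⟨B + 1, by omega, fun μ g I => (hB ⟨⟨μ, g, I⟩, rfl⟩).trans (Nat.le_succ B)⟩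
  refine ⟨k, hk1, ?_, ?_⟩
  · intro g μ hμ
    obtain ⟨t, h1, h2, h3⟩ := (mem_Pk P k μ).1 hμ
    refine (mem_Pk P k _).2 ⟨t.map (fun x => g • x), ?_, ?_, ?_⟩
    · intro κ hκ
      obtain ⟨a, ha, rfl⟩ := Multiset.mem_map.1 hκ
      exact hG g a (h1 a ha)
    · rw [Multiset.card_map, h2]
    · rw [← h3, Multiset.smul_sum]
  · intro μ hμ
    obtain ⟨t, h1, h2, h3⟩ := (mem_Pk P k μ).1 hμ
    have hne : t ≠ 0 := by
      rintro rfl
      simp at h2
      omega
    obtain ⟨μ1, hμ1⟩ := Multiset.exists_mem_of_ne_zero hne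
    obtain ⟨t', rfl⟩ := Multiset.exists_cons_of_mem hμ1
    set w : {x // x ∈ P} := ⟨μ1, h1 μ1 hμ1⟩ with hw
    have ht' : ∀ κ ∈ t', κ ∈ P := fun κ hκ => h1 κ (Multiset.mem_cons_of_mem hκ)
    have hct' : t'.card = k - 1 := by
      rw [Multiset.card_cons] at h2
      omega
    refine ⟨k • v w, smul_mem_Pk P k (hv w), ?_, nn w, b w, ?_, ?_, ?_⟩
    · obtain ⟨s, hs1, hs2⟩ := hs w
      -- n = s.card + 1
      have hbr := group P k ((s.card + 1) * k - 1)
        (k • s + ((s.card + 1) * k) • t') (by
          intro κ hκ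
          rcases Multiset.mem_add.1 hκ with h | h
          · exact hs1 κ (Multiset.mem_of_mem_nsmul h)
          · exact ht' κ (Multiset.mem_of_mem_nsmul h)) (by
          rw [Multiset.card_add, Multiset.card_nsmul, Multiset.card_nsmul, hct']
          obtain ⟨j, rfl⟩ : ∃ j, k = j + 1 := ⟨k - 1, by omega⟩
          have e1 : j + 1 - 1 = j := by omega
          have e2 : (s.card + 1) * (j + 1) - 1 = s.card * (j + 1) + j := by
            have : (s.card + 1) * (j + 1) = s.card * (j + 1) + j + 1 := by ring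
            omega
          rw [e1, e2]
          ring)
      obtain ⟨s', hs'1, hs'2, hs'3⟩ := hbr
      refine ⟨s', hs'1, ?_⟩
      have hpos : 1 ≤ (s.card + 1) * k := by nlinarith
      rw [hs'2, hs'3, Nat.sub_add_cancel hpos, ← h3, Multiset.sum_cons, Multiset.sum_add,
        Multiset.sum_nsmul, Multiset.sum_nsmul, smul_add]
      have e1 : ((s.card + 1) * k) • μ1 = k • v w + k • s.sum := by
        rw [mul_comm, mul_smul]
        have : (s.card + 1) • μ1 = v w + s.sum := hs2
        rw [this, smul_add]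
      rw [e1]
      abel
    · intro i
      have h4 := near_mem P k (hv w) (b w) (hbP w) (fun j => if j = i then 1 else 0) (by
        rw [Finset.sum_ite_eq' Finset.univ i (fun _ => 1)]
        simp; exact hk1)
      have h5 : ∑ j, (if j = i then 1 else 0) • (b w) j = (b w) i := by
        simp
      rwa [h5] at h4
    · intro κ hκ i
      obtain ⟨u, hu1, hu2, hu3⟩ := (mem_Pk P k κ).1 hκ
      have h6 : κ - k • v w = (u.map (fun x => x - v w)).sum := by
        rw [Multiset.sum_map_sub, Multiset.map_id', Multiset.map_const', Multiset.sum_replicate,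
          hu2, hu3]
      rw [h6]
      have h7 : ∀ u : Multiset Λ, (∀ κ ∈ u, κ ∈ P) →
          0 ≤ (b w).repr ((u.map (fun x => x - v w)).sum) i := by
        intro u
        induction u using Multiset.induction_on with
        | empty => intro _; simp
        | cons a u ih =>
          intro hu
          rw [Multiset.map_cons, Multiset.sum_cons, map_add, Finsupp.add_apply]
          exact add_nonneg (hbn w a (hu a (Multiset.mem_cons_self a u)) i)
            (ih fun κ hκ => hu κ (Multiset.mem_cons_of_mem hκ))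
      exact h7 u hu1
    · intro g p hp hgp I hI
      obtain ⟨r, gg, hF, hsum⟩ := hK w g I p hp hgp hI
      refine ⟨r, gg, hF, fun i => ?_⟩
      refine ⟨k • v w + ∑ j, ((b w).repr (gg i) j).toNat • (b w) j,
        near_mem P k (hv w) (b w) (hbP w) _ ((hsum i).1.trans (hk w g I)),
        k • v w + ∑ j, (-((b w).repr (gg i) j)).toNat • (b w) j,
        near_mem P k (hv w) (b w) (hbP w) _ ((hsum i).2.trans (hk w g I)), ?_, ?_, ?_⟩
      · intro j hj
        rw [add_sub_cancel_left]
        have hz := hF.sp i j hj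
        rw [map_sum, Finsupp.finsetSum_apply]
        refine Finset.sum_eq_zero fun l _ => ?_
        rw [map_nsmul, Finsupp.smul_apply, Basis.repr_self, Finsupp.single_apply]
        split_ifs with h
        · rw [h, hz]; simp
        · simp
      · intro j hj
        rw [add_sub_cancel_left]
        have hz := hF.sp i j hj
        rw [map_sum, Finsupp.finsetSum_apply]
        refine Finset.sum_eq_zero fun l _ => ?_
        rw [map_nsmul, Finsupp.smul_apply, Basis.repr_self, Finsupp.single_apply]
        split_ifs with h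
        · rw [h, hz]; simp
        · simp
      · rw [add_sub_add_left_eq_sub, ← Finset.sum_sub_distrib]
        have h8 : ∀ j, ((b w).repr (gg i) j).toNat • (b w) j -
            (-((b w).repr (gg i) j)).toNat • (b w) j = (b w).repr (gg i) j • (b w) j := by
          intro j
          rw [← natCast_zsmul, ← natCast_zsmul, ← sub_smul]
          congr 1
          omega
        rw [Finset.sum_congr rfl fun j _ => h8 j]
        exact (b w).sum_repr (gg i)

end Pool.Agent.K3h75.TV
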