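import Pool.Agent.K3h66.TO.Fml
import Pool.Agent.K3h75.TV.Pk2

/-!
# The family of the coordinates, with the linear forms

Variant of `Pool.Agent.K3h66.TO.t_FML` (helper66) in which the span of the coordinates is recorded.
-/

set_option autoImplicit false
set_option linter.unusedSectionVars false

open NumberField

namespace Pool.Agent.K3h75.TV

open Pool.Agent.Y223.G Pool.Agent.W418.LU2 Pool.Agent.R383.TM Module
open Pool.Agent.K3h75.TO Pool.Agent.K3h66.TO.F Pool.Agent.K3h22.PK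

/-- The family of the coordinates: they span the same module as the characters in a multiple of
the polytope. -/
def S_FML2 : Prop := S_PK2 → S_VREG → S_VNZ → S_CHT → S_CH0 → S_NUM →
  ∀ (E M : Type) [Field E] [NumberField E] [Field M] [NumberField M] [Algebra E M]
  [IsGalois E M], (∀ 𝔓 : Ideal (𝓞 M), 𝔓.IsMaximal → ∀ p : ℕ, p.Prime → (p : 𝓞 M) ∈ 𝔓 →
    ¬ p ^ 2 ∣ Nat.card (inert E 𝔓)) →
  ∀ (Λ : Type) [AddCommGroup Λ] [DistribMulAction (M ≃ₐ[E] M) Λ] (P : Finset Λ), SmP P →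
  (∀ (g : M ≃ₐ[E] M), ∀ μ ∈ P, g • μ ∈ P) →
  ∀ (K : Type) [Field K] [Algebra M K] [Algebra E K] [IsScalarTower E M K]
  (ρ : (M ≃ₐ[E] M) →* (K ≃ₐ[E] K)), (∀ g c, ρ g (algebraMap M K c) = algebraMap M K (g c)) →
  ∀ x : Λ → K, x 0 = 1 → (∀ a b, x (a + b) = x a * x b) → LinearIndependent M x →
  IntermediateField.adjoin M (Set.range x) = ⊤ → (∀ g a, ρ g (x a) = x (g • a)) →
  ∃ (k m : ℕ) (z : Fin (m + 1) → K), 1 ≤ k ∧ (∀ j, z j ≠ 0) ∧
    (∀ j, z j ∈ Submodule.span (𝓞 M) (x '' (Pk P k : Set Λ))) ∧ (∀ μ ∈ Pk P k, ∃ j, z j = x μ) ∧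
    IntermediateField.adjoin M (Set.range fun j => z j / z 0) = ⊤ ∧
    (∀ g j, ρ g (z j) ∈ Submodule.span (𝓞 M) (Set.range z)) ∧
    (∀ j, IsRegularRing (Algebra.adjoin (𝓞 M) (Set.range fun i => z i / z j))) ∧
    ∃ (e : Ideal (𝓞 M) → ℕ) (w : Ideal (𝓞 M) → Fin (m + 1) → ℕ), DATA ρ z e w

theorem t_FML2 : S_FML2 := by
  intro hPK hVREG hVNZ hCHT hCH0 hNUM E M _ _ _ _ _ _ hin Λ _ _ P₀ hSm hst₀ K _ _ _ _ ρ hρ x
    hx0 hxa hxi hgen hact
  have hfd : FiniteDimensional E M := Module.Finite.of_restrictScalars_finite ℚ E M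
  have hfinG : Finite (M ≃ₐ[E] M) := inferInstance
  obtain ⟨k₀, hk₀, hst, hvx⟩ := hPK Λ (M ≃ₐ[E] M) P₀ hSm hst₀
  obtain ⟨v₀, hv₀⟩ := hSm.ne
  have hPne : (Pk P₀ k₀).Nonempty := ⟨k₀ • v₀, smul_mem_Pk P₀ k₀ hv₀⟩
  clear hv₀ v₀
  obtain ⟨P, hP⟩ : ∃ P, P = Pk P₀ k₀ := ⟨_, rfl⟩
  rw [← hP] at hst hvx hPne
  have hxiO : LinearIndependent (𝓞 M) x := by
    refine LinearIndependent.restrict_scalars (K := M) ?_ hxi
    intro a b hab
    have h1 : algebraMap (𝓞 M) M a = algebraMap (𝓞 M) M b := by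
      have h2 : (a • (1 : M)) = b • (1 : M) := hab
      rwa [Algebra.smul_def, Algebra.smul_def, mul_one, mul_one] at h2
    exact RingOfIntegers.coe_injective h1
  have hch : Chr Λ (𝓞 M) K x := ⟨hx0, hxa, hxiO⟩
  obtain ⟨m, z, w, hE⟩ := exists_EN ρ x P hPne hch.ne
  have hz : ∀ j, z j ≠ 0 := by
    intro j
    obtain ⟨i, h1, h2, -⟩ := hE.fwd j
    rw [h1]
    exact h2
  have hzs : ∀ j, z j ∈ Submodule.span (𝓞 M) (x '' (P : Set Λ)) := by
    intro j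
    obtain ⟨i, h1, -, -⟩ := hE.fwd j
    rw [h1]
    exact cl_span (val_cl hst hact i)
  have hxz : ∀ μ ∈ P, ∃ j, z j = x μ := by
    intro μ hμ
    obtain ⟨j, hj, -⟩ := hE.bwd (Sum.inl ⟨μ, hμ⟩) (hch.ne μ)
    exact ⟨j, hj⟩
  have hcj : ∀ (g : M ≃ₐ[E] M) j, ∃ (i : JJ E M P) (k : Fin (m + 1)), z k = ρ g (z j) ∧
      (∀ I, w I j = wt I i) ∧ ∀ I, w I k = wt I (cj hst g i) := by
    intro g j
    obtain ⟨i, h1, h2, h3⟩ := hE.fwd j
    have h4 : val ρ x (cj hst g i) ≠ 0 := by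
      rw [val_cj hst hact]
      intro h5
      exact h2 ((map_eq_zero_iff _ (ρ g).injective).1 h5)
    obtain ⟨k, hk1, hk2⟩ := hE.bwd _ h4
    exact ⟨i, k, by rw [hk1, val_cj hst hact, h1], h3, hk2⟩
  have hWN : ∀ (I : Ideal (𝓞 M)) (g : M ≃ₐ[E] M), I.IsMaximal → IsW E I g →
      ∃ p l : ℕ, WN ρ x I g p l := by
    intro I g hI hg
    obtain ⟨p, l, hp, hl, hI0, hgp, hpl, hdv, hun, hal⟩ := hNUM E M I hI (hin I hI) g hg
    refine ⟨p, l, ?_, hg, hgp, lw_eq hg hp hgp hdv hun hal, hal⟩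
    exact
      { toChr := hch
        pp := hp
        mx := hI
        ne := hI0
        com := fun o => hρ g (o : M)
        act := fun a => hact g a
        ord := by
          intro y
          rw [rho_iter, hgp, map_one]
          rfl
        l1 := hl
        dv := hdv
        un := hun
        pl := hpl }
  have hC : ∀ (I : Ideal (𝓞 M)) (g : M ≃ₐ[E] M) (p l : ℕ), WN ρ x I g p l → ∀ j,
      IsRegularRing (WB x (ρ g).toRingEquiv (ta Λ g) p l I P (z j)) ∧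
      ∀ (Q : Ideal (WB x (ρ g).toRingEquiv (ta Λ g) p l I P (z j))) [Q.IsPrime],
      Zr2 x (ρ g).toRingEquiv (TT E M g).toRingEquiv (ta Λ g) p l I P (z j) Q →
      ∀ (k : ℕ) (y : K), 0 < k → hm k y ∈ WB x (ρ g).toRingEquiv (ta Λ g) p l I P (z j) →
        MQ _ Q (hm k y) := by
    intro I g p l h j
    have hst' : ∀ a ∈ P, ta Λ g a ∈ P := fun a ha => hst g a ha
    refine hCHT Λ (𝓞 M) K x (ρ g).toRingEquiv (TT E M g).toRingEquiv (ta Λ g) p l I h.wd P hst'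
      ?_ (z j) (hz j) (hzs j)
    intro μ hμ
    obtain ⟨v, hv, hms, n, b, hb, hnn, hLg⟩ := hvx μ hμ
    have hVx : Vx b (ta Λ g) p P v := by
      refine ⟨hv, hst', hb, hnn, ?_⟩
      refine hLg g p h.wd.pp ?_
      intro a
      have h1 := ta_iter g p a
      rw [h.gp, one_smul] at h1
      exact h1
    exact ⟨v, hv, hms,
      hVREG Λ (𝓞 M) K x (ρ g).toRingEquiv (TT E M g).toRingEquiv (ta Λ g) p l I h.wd n b P v hVx,
      hVNZ Λ (𝓞 M) K x (ρ g).toRingEquiv (TT E M g).toRingEquiv (ta Λ g) p l I h.wd n b P v hVx⟩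
  refine ⟨k₀, m, z, hk₀, hz, by rw [← hP]; exact hzs, by rw [← hP]; exact hxz, ?_, ?_, ?_,
    fun _ => 1, w, ?_⟩
  · obtain ⟨μ, hμ⟩ := hPne
    obtain ⟨v, hv, -, n, b, hb, -, -⟩ := hvx μ hμ
    exact gen_top hx0 hxa hgen hz hxz hv b hb
  · intro g j
    obtain ⟨-, k, hk, -, -⟩ := hcj g j
    rw [← hk]
    exact Submodule.subset_span ⟨k, rfl⟩
  · intro j
    rw [adj_eq hzs hxz]
    refine hCH0 Λ (𝓞 M) K x hch P ?_ (z j) (hz j) (hzs j)
    intro μ hμ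
    obtain ⟨v, hv, hms, n, b, hb, hnn, -⟩ := hvx μ hμ
    exact ⟨v, hv, hms, n, b, hb, hnn⟩
  · refine ⟨fun _ => one_pos, ?_, ?_, ?_⟩
    · intro I g hI hg j
      obtain ⟨p, l, h⟩ := hWN I g hI hg
      rw [BR_WB hst hact h hE j]
      exact (hC I g p l h j).1
    · intro I g hI hg h J hh
      refine ⟨rfl, ?_⟩
      intro i j
      obtain ⟨i', k, hk, h1, h2⟩ := hcj h i
      have h3 : w I i = w J k := by
        rw [h1, h2, wt_cj hst hh]
      rw [h3, ← hk]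
      exact Algebra.subset_adjoin (Or.inr ⟨k, rfl⟩)
    · intro I g hI hg
      obtain ⟨p, l, h⟩ := hWN I g hI hg
      refine ⟨l, l, h.wd.l1, by rw [one_mul], ?_, ?_, ?_⟩
      · intro o
        exact ex_iff.2 (h.wd.dv o)
      · intro i j
        rw [BR_WB hst hact h hE j, mo_eq]
        obtain ⟨i', h1, -, h2⟩ := hE.fwd i
        rw [h1, h2]
        exact v_lin hst hact h (z j) i'
      · intro j
        exact nf_of hst hact h hE hz j (hC I g p l h j).2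

end Pool.Agent.K3h75.TV
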