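import Pool.Agent.K3h75.TV.Fml2
import Pool.Agent.K3h22.PK

/-!
# Quotients by groups with nondegenerate wild inertia: Veronese embeddings

Variant of `Pool.Agent.R383.TM.tm_good` (helper383): the coordinates on the model over the
extension span a power of the space spanned by the coordinates on the variety.
-/

set_option autoImplicit false
set_option linter.unusedVariables false
set_option linter.unusedSectionVars false

open scoped Pointwise

open AlgebraicGeometry CategoryTheory CategoryTheory.Limits MvPolynomial NumberField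

namespace Pool.Agent.K3h75.TV

open Pool.Agent.Y223.G Pool.Agent.TH214.RM Pool.Agent.H918R2.Quad Pool.Agent.W418
open Pool.Agent.R383.TM Pool.Agent.K3h22.PK

section

variable {E M F K A : Type} [Field E] [NumberField E] [Field M] [NumberField M] [Algebra E M]
  [Field F] [Algebra E F] [Field K] [Algebra M K] [Algebra E K] [IsScalarTower E M K]
  [Algebra F K] [IsScalarTower E F K] [CommRing A] [Algebra E A] {m : ℕ}

theorem good_pow (hLI : S_LINW) (hCH : S_CHW) (hRWB : S_RWB) (hREGL : S_REGL)
    {ρ : (M ≃ₐ[E] M) →* (K ≃ₐ[E] K)} {z : Fin (m + 1) → K} (hD : WWD E M F K ρ z)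
    {ι : Type} [Finite ι] (u : ι → F) {k : ℕ} (hk : 1 ≤ k)
    (hseg : (Submodule.span M (Set.range fun i => algebraMap F K (u i))) ^ k =
      Submodule.span M (Set.range z)) :
    GoodModule (𝓞 E) u := by
  classical
  set M₀ : Submodule (𝓞 E) F := Submodule.span (𝓞 E) (Set.range u ^ k) with hM₀
  have hfin : ∀ k : ℕ, (Set.range u ^ k).Finite := by
    intro k
    induction k with
    | zero => rw [pow_zero]; exact Set.finite_one
    | succ k ih => rw [pow_succ]; exact ih.mul (Set.finite_range u)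
  have hfg : M₀.FG := Submodule.fg_span (hfin k)
  have h0 : Submodule.span M (algebraMap F K '' (Set.range u ^ k)) =
      Submodule.span M (Set.range z) := by
    rw [← hseg, Submodule.span_pow]
    congr 1
    have h2 : (Set.range fun i => algebraMap F K (u i)) = algebraMap F K '' Set.range u := by
      rw [← Set.range_comp]
      rfl
    rw [h2]
    exact Set.image_pow (algebraMap F K) (Set.range u) k
  have h1 : Submodule.span M ((IsScalarTower.toAlgHom (𝓞 E) F K) '' (M₀ : Set F)) =
      Submodule.span M (algebraMap F K '' (Set.range u ^ k)) := by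
    apply le_antisymm
    · rw [Submodule.span_le]
      rintro _ ⟨y, hy, rfl⟩
      induction hy using Submodule.span_induction with
      | mem y hy => exact Submodule.subset_span ⟨y, hy, rfl⟩
      | zero => rw [map_zero]; exact Submodule.zero_mem _
      | add a b _ _ ha hb => rw [map_add]; exact Submodule.add_mem _ ha hb
      | smul c a _ ha =>
        rw [map_smul]
        have h2 : c • (IsScalarTower.toAlgHom (𝓞 E) F K) a =
            algebraMap E M (algebraMap (𝓞 E) E c) • (IsScalarTower.toAlgHom (𝓞 E) F K) a := by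
          rw [Algebra.smul_def, Algebra.smul_def, ← IsScalarTower.algebraMap_apply E M K]
          rfl
        rw [h2]
        exact Submodule.smul_mem _ _ ha
    · rw [Submodule.span_le]
      rintro _ ⟨y, hy, rfl⟩
      exact Submodule.subset_span ⟨y, Submodule.subset_span hy, rfl⟩
  obtain ⟨M', hM'fg, hM'0, -, hreg, hmo⟩ := tm_module hLI hCH hRWB hREGL hD M₀ hfg True
    (fun _ => h1.trans h0)
  obtain ⟨n, hn, hle, hge⟩ := hmo trivial
  have hpow : M₀ ^ n = Submodule.span (𝓞 E) (Set.range u ^ (k * n)) := by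
    rw [hM₀, Submodule.span_pow, pow_mul]
  refine Pool.Agent.Y223.INV.goodModule_of (E := E) (D := k * n) (Nat.mul_pos hk hn) hM'fg hM'0
    one_ne_zero ?_ ?_ hreg
  · intro f hf
    rw [one_mul]
    obtain ⟨c, hc, hcf⟩ := hle f hf
    rw [hpow] at hcf
    have h2 : (algebraMap (𝓞 E) E c) • f ∈ Submodule.span E (Set.range u ^ (k * n)) := by
      have h3 := Submodule.span_subset_span (𝓞 E) E _ hcf
      rwa [← algebraMap_smul E c f] at h3
    have hc0 : algebraMap (𝓞 E) E c ≠ 0 := RingOfIntegers.coe_ne_zero_iff.2 hc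
    have h3 := Submodule.smul_mem _ (algebraMap (𝓞 E) E c)⁻¹ h2
    rwa [smul_smul, inv_mul_cancel₀ hc0, one_smul] at h3
  · intro y hy
    obtain ⟨c, hc, hcy⟩ := Pool.Agent.W418.exists_smul_span (O := 𝓞 E) (K := E)
      (Set.range u ^ (k * n)) y hy
    rw [← hpow] at hcy
    obtain ⟨d, hd, hdy⟩ := hge _ hcy
    refine ⟨d * c, mul_ne_zero hd hc, ?_⟩
    rw [div_one, mul_smul]
    exact hdy

/-- The powers of the span of the characters. -/
theorem span_Pk {Λ : Type} [AddCommGroup Λ] {x : Λ → K} (hx0 : x 0 = 1)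
    (hxa : ∀ a b, x (a + b) = x a * x b) (P : Finset Λ) (k : ℕ) :
    Submodule.span M (x '' (Pk P k : Set Λ)) = (Submodule.span M (x '' (P : Set Λ))) ^ k := by
  classical
  rw [Submodule.span_pow]
  congr 1
  induction k with
  | zero =>
    rw [Pk, Finset.coe_singleton, Set.image_singleton, hx0, pow_zero]
    rfl
  | succ k ih =>
    rw [Pk, Finset.coe_image₂, pow_succ', ← ih]
    ext y
    constructor
    · rintro ⟨_, ⟨a, ha, b, hb, rfl⟩, rfl⟩
      exact ⟨x a, ⟨a, ha, rfl⟩, x b, ⟨b, hb, rfl⟩, (hxa a b).symm⟩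
    · rintro ⟨_, ⟨a, ha, rfl⟩, _, ⟨b, hb, rfl⟩, rfl⟩
      exact ⟨a + b, ⟨a, ha, b, hb, rfl⟩, hxa a b⟩

theorem span_z {Λ : Type} [AddCommGroup Λ] {x : Λ → K} (hx0 : x 0 = 1)
    (hxa : ∀ a b, x (a + b) = x a * x b) {P : Finset Λ} {k : ℕ} {z : Fin (m + 1) → K}
    (h1 : ∀ j, z j ∈ Submodule.span (𝓞 M) (x '' (Pk P k : Set Λ)))
    (h2 : ∀ μ ∈ Pk P k, ∃ j, z j = x μ) :
    (Submodule.span M (x '' (P : Set Λ))) ^ k = Submodule.span M (Set.range z) := by
  rw [← span_Pk hx0 hxa]
  apply le_antisymm
  · rw [Submodule.span_le]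
    rintro _ ⟨μ, hμ, rfl⟩
    obtain ⟨j, hj⟩ := h2 μ hμ
    exact Submodule.subset_span ⟨j, hj⟩
  · rw [Submodule.span_le]
    rintro _ ⟨j, rfl⟩
    exact Submodule.span_subset_span (𝓞 M) M _ (h1 j)

end

end Pool.Agent.K3h75.TV
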